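import Pool.Agent.H.MP_c563b5_an.A

namespace Pool.Agent.Results.MP_c563b5_an.No

open Filter Topology Polynomial Set Pool.Agent.H.MP_c563b5_an

/-- every minor of the lower-triangular Toeplitz matrix `(a_{i-j})` is nonnegative. -/
def TP (a : ℕ → ℝ) : Prop :=
  ∀ (r : ℕ) (i j : Fin r → ℕ), StrictMono i → StrictMono j →
    0 ≤ (Matrix.of fun s t => if j t ≤ i s then a (i s - j t) else 0).det

def TN (M : ℕ → ℕ → ℝ) : Prop :=
  ∀ (r : ℕ) (i j : Fin r → ℕ), StrictMono i → StrictMono j →
    0 ≤ (Matrix.of fun s t => M (i s) (j t)).det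

def toe (a : ℕ → ℝ) (i j : ℕ) : ℝ := if j ≤ i then a (i - j) else 0

lemma TN.step {M : ℕ → ℕ → ℝ} (h : TN M) (d c : ℕ → ℝ) (hd : ∀ i, 0 ≤ d i) (hc : ∀ i, 0 ≤ c i) :
    TN fun i j => d i * M i j + c i * M (i - 1) j := by
  intro r i j hi hj
  have := (Matrix.detRowAlternating (n := Fin r) (R := ℝ)).map_add_univ
    (fun s t => d (i s) * M (i s) (j t)) fun s t => c (i s) * M (i s - 1) (j t)
  refine le_of_le_of_eq (Finset.sum_nonneg fun S _ => ?_) this.symm
  let f : Fin r → ℕ := fun s => if s ∈ S then i s else i s - 1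
  have e : S.piecewise (fun s t => d (i s) * M (i s) (j t)) (fun s t => c (i s) * M (i s - 1) (j t))
      = Matrix.of fun s t => (if s ∈ S then d (i s) else c (i s)) *
        (Matrix.of fun s t => M (f s) (j t)) s t := by
    ext s t
    by_cases hs : s ∈ S <;> simp [hs, f]
  show 0 ≤ Matrix.det _
  rw [e, Matrix.det_mul_column]
  refine mul_nonneg (Finset.prod_nonneg fun s _ => by split_ifs <;> simp [hd, hc]) ?_
  by_cases hf : Function.Injective f
  · refine h r f j (Monotone.strictMono_of_injective (monotone_iff_forall_lt.2 fun s t hst => ?_)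
      hf) hj
    have := hi hst
    simp only [f]; split_ifs <;> omega
  · obtain ⟨s, t, e, hst⟩ := Function.not_injective_iff.1 hf
    exact (Matrix.det_zero_of_row_eq hst (by ext k; simp [e])).ge

noncomputable def sq (φ : PowerSeries ℝ) (k : ℕ) : ℝ := (-1) ^ k * PowerSeries.coeff k φ

lemma tp_one : TN (toe (sq 1)) := by
  intro r i j hi hj
  by_cases h : i = j
  · subst h
    rw [show (Matrix.of fun s t => toe (sq 1) (i s) (i t)) = 1 from ?_]
    · simp
    ext s t
    by_cases h : s = t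
    · subst h; simp [toe, sq]
    · have := hi.injective.ne h
      simp only [Matrix.of_apply, toe, sq, PowerSeries.coeff_one, Matrix.one_apply_ne h]
      split_ifs <;> first | omega | simp
  · have z : ∀ a b, a ≠ b → toe (sq 1) a b = 0 := fun a b h => by
      simp only [toe, sq, PowerSeries.coeff_one]
      split_ifs <;> first | omega | simp
    by_cases h1 : range i ⊆ range j
    · by_cases h2 : range j ⊆ range i
      · exact absurd ((hi.range_inj hj).1 (h1.antisymm h2)) h
      · obtain ⟨_, ⟨t, rfl⟩, ht⟩ := not_subset.1 h2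
        exact (Matrix.det_eq_zero_of_column_eq_zero t fun s => z _ _ fun e => ht ⟨s, e⟩).ge
    · obtain ⟨_, ⟨s, rfl⟩, hs⟩ := not_subset.1 h1
      exact (Matrix.det_eq_zero_of_row_eq_zero s fun t => z _ _ fun e => hs ⟨t, e.symm⟩).ge

lemma tp_mul {φ : PowerSeries ℝ} (h : TN (toe (sq φ))) {r c : ℝ} (hr : 0 ≤ r) (hc : 0 ≤ c) :
    TN (toe (sq ((PowerSeries.C r - PowerSeries.C c * PowerSeries.X) * φ))) := by
  have e : toe (sq ((PowerSeries.C r - PowerSeries.C c * PowerSeries.X) * φ)) =
      fun i j => r * toe (sq φ) i j + (if i = 0 then 0 else c) * toe (sq φ) (i - 1) j := by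
    ext i j
    simp only [toe, sq, sub_mul, mul_assoc, map_sub, PowerSeries.coeff_C_mul]
    rcases lt_trichotomy i j with h | h | h
    · rw [if_neg (by omega), if_neg (by omega), if_neg (c := j ≤ i - 1) (by omega)]; simp
    · subst h
      by_cases h : i = 0
      · simp [h]
      · rw [if_neg (c := i ≤ i - 1) (by omega)]; simp
    · obtain ⟨k, rfl⟩ : ∃ k, i = j + k + 1 := ⟨i - j - 1, by omega⟩
      rw [if_pos (by omega), if_pos (by omega), if_neg (by omega), if_pos (by omega),
        show j + k + 1 - j = k + 1 by omega, show j + k + 1 - 1 - j = k by omega,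
        PowerSeries.coeff_succ_X_mul]
      ring
  rw [e]
  exact h.step (fun _ => r) _ (fun _ => hr) fun i => by split_ifs <;> simp [hc]

lemma tp_div {φ : PowerSeries ℝ} (h : TN (toe (sq (φ * (1 + PowerSeries.X))))) :
    TN (toe (sq φ)) := by
  have e : ∀ i j, toe (sq φ) (i + 1) j =
      toe (sq (φ * (1 + PowerSeries.X))) (i + 1) j + toe (sq φ) i j := by
    intro i j
    simp only [toe, sq, mul_add, mul_one, map_add]
    rcases lt_trichotomy (i + 1) j with h | h | h
    · rw [if_neg (by omega), if_neg (by omega), if_neg (by omega)]; simp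
    · subst h; simp
    · obtain ⟨k, rfl⟩ : ∃ k, i = j + k := ⟨i - j, by omega⟩
      rw [if_pos (by omega), if_pos (by omega), if_pos (by omega),
        show j + k + 1 - j = k + 1 by omega, show j + k - j = k by omega,
        PowerSeries.coeff_succ_mul_X]
      ring
  have e0 : ∀ j, toe (sq φ) 0 j = toe (sq (φ * (1 + PowerSeries.X))) 0 j := fun j => by
    simp [toe, sq, mul_add]
  have key : ∀ L, TN fun i j => if i ≤ L then toe (sq φ) i j else
      toe (sq (φ * (1 + PowerSeries.X))) i j := by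
    intro L
    induction L with
    | zero =>
      refine (congrArg TN ?_).mp h
      ext i j
      split_ifs with hi
      · rw [Nat.le_zero.1 hi, e0]
      · rfl
    | succ L ih =>
      refine (congrArg TN ?_).mp (ih.step (fun _ => 1) (fun i => if i = L + 1 then 1 else 0)
        (fun _ => zero_le_one) fun i => by split_ifs <;> simp)
      ext i j
      by_cases hi : i = L + 1
      · subst hi; simp [e]
      · simp [hi, show i ≤ L + 1 ↔ i ≤ L by omega]
  intro r i j hi hj
  refine le_of_le_of_eq (key (Finset.univ.sup i) r i j hi hj) (congrArg _ ?_)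
  ext s t
  simp [Finset.le_sup (f := i) (Finset.mem_univ s)]

/-- `B` is the numerator of the generating function of `a` -/
def Rel (a : ℕ → ℝ) (B : ℝ[X]) (n : ℕ) : Prop :=
  PowerSeries.mk (fun k => (-1) ^ k * a k) * (1 + PowerSeries.X : PowerSeries ℝ) ^ (n + 1) =
    (B : PowerSeries ℝ) ∧ B.natDegree ≤ n

lemma Rel.nx {a : ℕ → ℝ} {B : ℝ[X]} {n : ℕ} (h : Rel a B n) (γ : ℝ) :
    Rel (fun k => (k + γ) * a k) (nx γ n B) (n + 1) := by
  refine ⟨?_, nx_deg γ h.2⟩
  have h1 := h.1
  set φ := PowerSeries.mk fun k => (-1) ^ k * a k with hφ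
  have e : (PowerSeries.mk fun k => (-1) ^ k * ((k + γ) * a k)) =
      PowerSeries.X * PowerSeries.derivative ℝ φ + PowerSeries.C γ * φ := by
    ext k
    cases k with
    | zero => simp [hφ]
    | succ k => simp [hφ, PowerSeries.coeff_succ_X_mul, PowerSeries.coeff_derivative]; ring
  have h2 := congrArg (PowerSeries.derivative ℝ) h1
  rw [PowerSeries.derivative_coe, Derivation.leibniz, Derivation.leibniz_pow] at h2
  simp only [map_add, Derivation.map_one_eq_zero, PowerSeries.derivative_X, smul_eq_mul, zero_add,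
    mul_one, Nat.add_sub_cancel, nsmul_eq_mul] at h2
  rw [e, H.MP_c563b5_an.nx]
  simp only [coe_sub, coe_mul, coe_add, coe_one, coe_X, coe_C, ← h2, ← h1]
  rw [map_add, map_natCast, map_one]
  push_cast
  ring

lemma Rel.tp {a : ℕ → ℝ} {B : ℝ[X]} {n m : ℕ} (h : Rel a B n) (h0 : 0 < a 0) {u v : ℝ}
    (hu : 0 < u) (hc : Ch (sp B) u v m) (hm : n ≤ m) : TP a := by
  have c1 := hc.roots
  have c2 := Multiset.toFinset_card_le B.roots
  have c3 := B.card_roots'
  have c4 := h.2
  have c5 := Finset.card_filter_le B.roots.toFinset (u < ·)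
  have hpos : ∀ r ∈ B.roots, 0 < r := fun r hr => hu.trans
    (Finset.card_filter_eq_iff.1 (show (B.roots.toFinset.filter (u < ·)).card = _ by omega) r
      (Multiset.mem_toFinset.2 hr))
  have e := C_leadingCoeff_mul_prod_multiset_X_sub_C (p := B) (by omega)
  have k : ∀ S : Multiset ℝ, (∀ r ∈ S, 0 < r) → ∀ c : ℝ,
      0 < (C c * (S.map fun a => X - C a).prod).eval 0 →
      TN (toe (sq (C c * (S.map fun a => X - C a).prod : ℝ[X]))) := by
    intro S
    induction S using Multiset.induction_on with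
    | empty =>
      intro _ c hc
      simpa using tp_mul tp_one (r := c) (by simpa using hc.le) le_rfl
    | cons r S ih =>
      intro hS c hc
      have hr := hS r (Multiset.mem_cons_self _ _)
      have e : C c * ((r ::ₘ S).map fun a => X - C a).prod =
          (C r - C 1 * X) * (C (-c) * (S.map fun a => X - C a).prod) := by
        simp only [Multiset.map_cons, Multiset.prod_cons, map_neg, map_one]; ring
      rw [e] at hc ⊢
      rw [eval_mul] at hc
      have := tp_mul (ih (fun r h => hS r (Multiset.mem_cons_of_mem h)) (-c)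
        ((mul_pos_iff_of_pos_left (by simpa using hr)).1 hc)) hr.le zero_le_one
      simpa only [coe_mul, coe_sub, coe_C, coe_X] using this
  have k1 := k _ hpos B.leadingCoeff (by
    rw [e, ← coeff_zero_eq_eval_zero, ← coeff_coe, ← h.1]; simpa using h0)
  rw [e, ← h.1] at k1
  have k2 : ∀ (l : ℕ) (φ : PowerSeries ℝ), TN (toe (sq (φ * (1 + PowerSeries.X) ^ l))) →
      TN (toe (sq φ)) := fun l φ h => by
    induction l with
    | zero => simpa using h
    | succ l ih => exact ih (tp_div (by rwa [mul_assoc, ← pow_succ]))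
  have k3 := k2 _ _ k1
  rw [show sq (PowerSeries.mk fun k => (-1) ^ k * a k) = a from funext fun k => by
    simp [sq, ← mul_assoc, ← mul_pow]] at k3
  exact k3

lemma Rel.sum {a : ℕ → ℝ} {B : ℝ[X]} {n : ℕ} (h : Rel a B n) {x S : ℝ} (hx : 0 < x)
    (hs : HasSum (fun k => (-1) ^ k * a k * x ^ k) S) : sp B x = SignType.sign S := by
  have k : ∀ l, HasSum (fun k => PowerSeries.coeff k (PowerSeries.mk (fun k => (-1) ^ k * a k) *
      (1 + PowerSeries.X) ^ l) * x ^ k) (S * (1 + x) ^ l) := by
    intro l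
    induction l with
    | zero => simpa using hs
    | succ l ih =>
      rw [pow_succ, ← mul_assoc, pow_succ, ← mul_assoc]
      generalize PowerSeries.mk (fun k => (-1) ^ k * a k) * (1 + PowerSeries.X) ^ l = φ at ih
      simp only [mul_add, mul_one, map_add, add_mul]
      refine ih.add ((hasSum_nat_add_iff' 1).1 ?_)
      simpa [PowerSeries.coeff_succ_mul_X, pow_succ, mul_assoc] using ih.mul_right x
  have k1 := k (n + 1)
  rw [h.1] at k1
  have k2 : HasSum (fun k => PowerSeries.coeff k (B : PowerSeries ℝ) * x ^ k) (B.eval x) := by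
    rw [eval_eq_sum_range]
    simp only [coeff_coe]
    exact hasSum_sum_of_ne_finset_zero fun k hk => by
      rw [coeff_eq_zero_of_natDegree_lt (by simp at hk; omega), zero_mul]
  rw [sp, k2.unique k1, sign_mul, sign_pos (by positivity : 0 < (1 + x) ^ (n + 1)), mul_one]

lemma base (N : ℕ) : ∃ B u v, Rel (fun k => (k + 1 / 2) ^ N) B N ∧ 0 < u ∧ Ch (sp B) u v N := by
  induction N with
  | zero =>
    refine ⟨1, 1, 1, ⟨?_, by simp⟩, one_pos, .refl _ (by simp [sp])⟩
    ext k
    cases k with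
    | zero => simp
    | succ k => simp [mul_add, PowerSeries.coeff_succ_mul_X, pow_succ, coeff_one]
  | succ N ih =>
    obtain ⟨B, u, v, h1, h2, h3⟩ := ih
    obtain ⟨u', v', h4, h5⟩ := h3.l3 (nx_mv (1 / 2) N B) (nx_inf (by norm_num) h1.2)
      (nx_zer (by norm_num) N B) h2
    exact ⟨_, u', v', by simpa only [pow_succ'] using h1.nx (1 / 2), h4, h5⟩

noncomputable def rho (j : ℕ) : ℝ := j / (j + 1)
noncomputable def U (j k : ℕ) : ℝ := (k + 1 / 2) * rho j ^ k

lemma rho_mem {j : ℕ} (h : 1 ≤ j) : 0 < rho j ∧ rho j < 1 := by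
  have : (1 : ℝ) ≤ j := by exact_mod_cast h
  exact ⟨by unfold rho; positivity, (div_lt_one (by positivity)).2 (by linarith)⟩

lemma U_pos {j : ℕ} (h : 1 ≤ j) (k : ℕ) : 0 < U j k := by
  have := (rho_mem h).1; unfold U; positivity

lemma U_lt {j : ℕ} (h : 1 ≤ j) {k : ℕ} (hk : k ≠ j) : U j k < U j j := by
  have hr := (rho_mem h).1
  have e : ∀ k : ℕ, U j (k + 1) - U j k = rho j ^ k / (j + 1) * (j - k - 1 / 2) := fun k => by
    unfold U; rw [pow_succ]; generalize rho j ^ k = y; unfold rho; push_cast; field_simp; ring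
  have p : ∀ k : ℕ, 0 < rho j ^ k / (j + 1) := fun k => by positivity
  rcases hk.lt_or_gt with hk | hk
  · induction hk' : j - k generalizing k with
    | zero => omega
    | succ d ih =>
      have : (k : ℝ) + 1 ≤ j := by exact_mod_cast hk
      have h1 : U j k < U j (k + 1) := by
        have := mul_pos (p k) (show (0 : ℝ) < j - k - 1 / 2 by linarith); linarith [e k]
      by_cases h2 : k + 1 = j
      · rwa [h2] at h1
      · exact h1.trans (ih h2 (by omega) (by omega))
  · induction k, hk using Nat.le_induction with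
    | base => have := mul_neg_of_pos_of_neg (p j) (show (j : ℝ) - j - 1 / 2 < 0 by linarith)
              linarith [e j]
    | succ k hk' ih =>
      have : (j : ℝ) + 1 ≤ k := by exact_mod_cast hk'
      have := mul_neg_of_pos_of_neg (p k) (show (j : ℝ) - k - 1 / 2 < 0 by linarith)
      linarith [e k, ih (by omega)]

lemma dom {j : ℕ} (h : 1 ≤ j) (c : ℝ) (hc : 0 ≤ c) (hj : (j : ℝ) ≠ c) (e : ℕ) : ∀ᶠ N : ℕ in atTop,
    Summable (fun k : ℕ => |k - c| ^ e * (k + 1 / 2) ^ N * (rho j ^ N) ^ k) ∧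
    ∑' k : ℕ, (if k = j then 0 else |k - c| ^ e * (k + 1 / 2) ^ N * (rho j ^ N) ^ k) <
      |j - c| ^ e * (j + 1 / 2) ^ N * (rho j ^ N) ^ j := by
  have hr := rho_mem h
  have hU := U_pos h
  have e1 : ∀ (N k : ℕ), |k - c| ^ e * (k + 1 / 2) ^ N * (rho j ^ N) ^ k =
      U j j ^ N * (|k - c| ^ e * (U j k / U j j) ^ N) := fun N k => by
    rw [div_pow, ← pow_mul, mul_comm N, pow_mul, mul_assoc, ← mul_pow, ← U]
    have := hU j
    field_simp
  have s0 : Summable fun k : ℕ => |k - c| ^ e * (U j k / U j j) := by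
    have := (summable_nat_add_iff 1).2 (summable_pow_mul_geometric_of_norm_lt_one (e + 1)
      (r := rho j) (by rw [Real.norm_eq_abs, abs_of_pos hr.1]; exact hr.2))
    refine Summable.of_nonneg_of_le (fun k => by have := hU k; have := hU j; positivity)
      (fun k => ?_) (this.mul_left ((c + 1) ^ e / (rho j * U j j)))
    have h1 : |k - c| ≤ (c + 1) * (k + 1) := by
      have : (0 : ℝ) ≤ k := by positivity
      rw [abs_le]; constructor <;> nlinarith
    have := hU j
    have := hr.1
    calc _ ≤ ((c + 1) * (k + 1)) ^ e * ((k + 1) * rho j ^ k / U j j) := by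
          unfold U; gcongr; norm_num
      _ = _ := by push_cast; rw [mul_pow, pow_succ, pow_succ]; field_simp
  have q : ∀ k, 0 ≤ U j k / U j j ∧ U j k / U j j ≤ 1 := fun k =>
    ⟨(div_pos (hU k) (hU j)).le, (div_le_one (hU j)).2 (by
      by_cases hk : k = j
      · rw [hk]
      · exact (U_lt h hk).le)⟩
  have b : ∀ᶠ N : ℕ in atTop, ∀ k : ℕ, |k - c| ^ e * (U j k / U j j) ^ N ≤
      |k - c| ^ e * (U j k / U j j) := by
    filter_upwards [eventually_ge_atTop 1] with N hN k
    gcongr
    exact pow_le_of_le_one (q k).1 (q k).2 (by omega)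
  have t := tendsto_tsum_of_dominated_convergence (𝓕 := atTop) (g := fun _ => 0)
    (f := fun N k => if k = j then 0 else |k - c| ^ e * (U j k / U j j) ^ N) s0 (fun k => by
      split_ifs with hk
      · exact tendsto_const_nhds
      · simpa using (tendsto_pow_atTop_nhds_zero_of_lt_one (q k).1
          ((div_lt_one (hU j)).2 (U_lt h hk))).const_mul (|k - c| ^ e)) (b.mono fun N hN k => by
      have := (q k).1
      split_ifs
      · simp only [norm_zero]; positivity
      · rw [Real.norm_of_nonneg (by positivity)]; exact hN k)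
  rw [tsum_zero] at t
  filter_upwards [b, t.eventually (gt_mem_nhds (pow_pos (abs_pos.2 (sub_ne_zero.2 hj)) e))]
    with N hN ht
  simp only [e1]
  refine ⟨(Summable.of_nonneg_of_le (fun k => by have := (q k).1; positivity) hN s0).mul_left _, ?_⟩
  rw [div_self (hU j).ne', one_pow, mul_one]
  refine lt_of_eq_of_lt ?_ (mul_lt_mul_of_pos_left ht (pow_pos (hU j) N))
  rw [← tsum_mul_left]
  exact tsum_congr fun k => by split_ifs <;> simp

lemma sign_dom {t : ℕ → ℝ} (hs : Summable fun k => |t k|) (j : ℕ)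
    (h : ∑' k, (if k = j then 0 else |t k|) < |t j|) :
    SignType.sign (∑' k, t k) = SignType.sign (t j) := by
  rw [hs.of_abs.tsum_eq_add_tsum_ite j, ← sub_neg_eq_add]
  refine sign_sub_of_lt (lt_of_le_of_lt ?_ h)
  rw [abs_neg, ← Real.norm_eq_abs]
  refine tsum_of_norm_bounded (Summable.of_nonneg_of_le (fun k => by split_ifs <;> simp)
    (fun k => by split_ifs <;> simp) hs).hasSum fun k => by split_ifs <;> simp

lemma sign_dom2 {w : ℕ → ℝ} (m : ℕ) {a b x : ℝ} (ha : 0 < a) (hx : x ∈ Icc a b)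
    (hs : Summable fun k => |w k| * b ^ k) (h0 : 0 ≤ w m) (h1 : 0 ≤ w (m + 1))
    (da : ∑' k, (if k = m then 0 else |w k| * a ^ k) < |w m| * a ^ m)
    (db : ∑' k, (if k = m + 1 then 0 else |w k| * b ^ k) < |w (m + 1)| * b ^ (m + 1)) :
    Summable (fun k => w k * x ^ k) ∧ 0 < ∑' k, w k * x ^ k := by
  have hx0 := ha.trans_le hx.1
  have hb := hx0.trans_le hx.2
  have sx : ∀ y, 0 < y → y ≤ b → Summable fun k => |w k| * y ^ k := fun y h h' =>
    Summable.of_nonneg_of_le (fun k => by positivity) (fun k => by gcongr) hs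
  have si : ∀ j y, 0 < y → y ≤ b → Summable fun k => if k = j then 0 else |w k| * y ^ k :=
    fun j y h h' => Summable.of_nonneg_of_le (fun k => by split_ifs <;> positivity)
      (fun k => by split_ifs <;> first | positivity | rfl) (sx y h h')
  have s1 : Summable fun k => w k * x ^ k := Summable.of_abs (by
    simpa [abs_mul, abs_of_pos hx0] using sx x hx0 hx.2)
  refine ⟨s1, ?_⟩
  have H := ((((hasSum_ite_eq m (w m * x ^ m)).add (hasSum_ite_eq (m + 1)
    (w (m + 1) * x ^ (m + 1)))).sub ((si m a ha (hx.1.trans hx.2)).hasSum.mul_left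
    ((x / a) ^ m))).sub ((si (m + 1) b hb le_rfl).hasSum.mul_left ((x / b) ^ (m + 1))))
  have xa : 1 ≤ x / a := (one_le_div ha).2 hx.1
  have xb : x / b ≤ 1 := (div_le_one hb).2 hx.2
  have ea : ∀ k, x ^ k = (x / a) ^ k * a ^ k := fun k => by rw [← mul_pow]; field_simp
  have eb : ∀ k, x ^ k = (x / b) ^ k * b ^ k := fun k => by rw [← mul_pow]; field_simp
  refine lt_of_lt_of_le ?_ (hasSum_le (fun k => ?_) H s1.hasSum)
  · rw [abs_of_nonneg h0] at da
    rw [abs_of_nonneg h1] at db
    have d1 := mul_lt_mul_of_pos_left da (by positivity : 0 < (x / a) ^ m)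
    have d2 := mul_lt_mul_of_pos_left db (by positivity : 0 < (x / b) ^ (m + 1))
    rw [ea m, eb (m + 1)]
    linarith
  · have p1 : 0 ≤ (x / a) ^ m * (|w k| * a ^ k) := by positivity
    have p2 : 0 ≤ (x / b) ^ (m + 1) * (|w k| * b ^ k) := by positivity
    have p3 : -(|w k| * x ^ k) ≤ w k * x ^ k := by
      rw [← neg_mul]; gcongr; exact neg_abs_le _
    rcases lt_trichotomy k m with h | h | h
    · have : |w k| * x ^ k ≤ (x / a) ^ m * (|w k| * a ^ k) := by
        rw [ea k, mul_left_comm]; gcongr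
      simp only [if_neg h.ne, if_neg (show k ≠ m + 1 by omega)]
      linarith
    · subst h; simp; positivity
    · by_cases h' : k = m + 1
      · subst h'; simp; positivity
      · have : |w k| * x ^ k ≤ (x / b) ^ (m + 1) * (|w k| * b ^ k) := by
          rw [eb k, mul_left_comm]
          exact mul_le_mul_of_nonneg_right (pow_le_pow_of_le_one (by positivity) xb (by omega))
            (by positivity)
        simp only [if_neg h.ne', if_neg h']
        linarith

lemma main (l : ℕ) : ∃ N, 1 ≤ N ∧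
    TP fun k => (k + -(2 * l + 7 / 2)) * ((k + -(2 * l + 7 / 2)) * (k + 1 / 2) ^ N) := by
  set c : ℝ := 2 * l + 7 / 2 with hc
  have hc0 : 0 < c := by positivity
  have hne : ∀ j : ℕ, (j : ℝ) ≠ c := fun j h => by
    have : (2 * j : ℝ) = 4 * l + 7 := by rw [h, hc]; ring
    have : 2 * j = 4 * l + 7 := by exact_mod_cast this
    omega
  have D := fun (i e : ℕ) => dom (j := 2 * l + 2 + i) (by omega) c hc0.le (hne _) e
  obtain ⟨N, hN, d1, d2, d3, d4, d5⟩ := ((eventually_ge_atTop 1).and ((D 0 1).and ((D 1 1).and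
    ((D 2 1).and ((D 1 2).and (D 2 2)))))).exists
  refine ⟨N, hN, ?_⟩
  obtain ⟨B, u, v, r0, hu, c0⟩ := base N
  have r1 := r0.nx (-c)
  have r2 := r1.nx (-c)
  obtain ⟨u', v', hu', c1, -⟩ := c0.l2 (nx_mv (-c) N B) (nx_inf (by linarith) r0.2) hu
  have hy : ∀ i, 0 < rho (2 * l + 2 + i) ^ N := fun i => pow_pos (rho_mem (by omega)).1 _
  have hy' : ∀ i, rho (2 * l + 2 + i) ^ N < rho (2 * l + 2 + (i + 1)) ^ N := fun i => by
    refine pow_lt_pow_left₀ ?_ (rho_mem (by omega)).1.le (by omega)
    unfold rho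
    rw [div_lt_div_iff₀ (by positivity) (by positivity)]
    push_cast; nlinarith
  have a1 : ∀ k : ℕ, |(-1) ^ k * ((k + -c) * (k + 1 / 2) ^ N)| =
      |k - c| ^ 1 * (k + 1 / 2) ^ N := fun k => by
    rw [abs_mul, abs_mul, abs_neg_one_pow, one_mul, pow_one, sub_eq_add_neg,
      abs_of_pos (by positivity : (0 : ℝ) < (k + 1 / 2) ^ N)]
  have a2 : ∀ k : ℕ, |(-1) ^ k * ((k + -c) * ((k + -c) * (k + 1 / 2) ^ N))| =
      |k - c| ^ 2 * (k + 1 / 2) ^ N := fun k => by
    rw [abs_mul, abs_mul, abs_mul, abs_neg_one_pow, one_mul, pow_two, sub_eq_add_neg,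
      abs_of_pos (by positivity : (0 : ℝ) < (k + 1 / 2) ^ N), mul_assoc]
  have sgn : ∀ {a : ℕ → ℝ} {B : ℝ[X]} {n : ℕ}, Rel a B n → ∀ (w : ℕ → ℝ) (j : ℕ) (y : ℝ), 0 < y →
      (∀ k, |(-1) ^ k * a k| = w k) → (Summable (fun k => w k * y ^ k) ∧
      ∑' k, (if k = j then 0 else w k * y ^ k) < w j * y ^ j) →
      sp B y = SignType.sign ((-1) ^ j * a j) := by
    intro a B n h w j y hy e ⟨s, d⟩
    have e' : ∀ k, |(-1) ^ k * a k * y ^ k| = w k * y ^ k := fun k => by
      rw [abs_mul, e, abs_of_pos (pow_pos hy _)]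
    simp only [← e'] at s d
    rw [h.sum hy s.of_abs.hasSum, sign_dom s j d, sign_mul, sign_pos (pow_pos hy _), mul_one]
  have ev : ∀ i, (-1 : ℝ) ^ (2 * l + 2 + i) = (-1) ^ i := fun i => by
    rw [pow_add, pow_add, pow_mul]; simp
  have cs : ∀ i : ℕ, ((2 * l + 2 + i : ℕ) : ℝ) + -c = i - 3 / 2 := fun i => by
    rw [hc]; push_cast; ring
  have pp : ∀ k : ℕ, (0 : ℝ) < (k + 1 / 2) ^ N := fun k => by positivity
  obtain ⟨u'', v'', n, h1, h2, h3⟩ := c1.l4 (nx_mv (-c) (N + 1) _) (nx_inf (by linarith) r1.2)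
    (hu.trans hu') (hy 0) (hy' 0) (hy' 1) (σ := 1) one_ne_zero
    ((sgn r1 _ _ _ (hy 0) a1 d1).trans (sign_neg (by
      rw [ev, cs]; have := pp (2 * l + 2 + 0); norm_num at this ⊢; exact this)))
    (fun x hx => by
      simp only [← a1] at d2 d3
      obtain ⟨s, p⟩ := sign_dom2 (2 * l + 2 + 1) (hy 1) hx d3.1 (by
        rw [ev, cs]; have := pp (2 * l + 2 + 1); norm_num at this ⊢; linarith) (by
        rw [add_assoc _ 1 1, ev, cs]; have := pp (2 * l + 2 + 2); norm_num at this ⊢; linarith)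
        d2.2 d3.2
      rw [r1.sum ((hy 1).trans_le hx.1) s.hasSum, sign_pos p])
    ((sgn r2 _ _ _ (hy 1) a2 d4).trans (sign_neg (by
      rw [ev, cs]; have := pp (2 * l + 2 + 1); norm_num at this ⊢; linarith)))
    ((sgn r2 _ _ _ (hy 2) a2 d5).trans (sign_pos (by
      rw [ev, cs]; have := pp (2 * l + 2 + 2); norm_num at this ⊢; linarith)))
  refine r2.tp ?_ h1 h3 h2
  have := pp 0
  simp only [Nat.cast_zero, zero_add, neg_mul, mul_neg, neg_neg] at this ⊢
  positivity

theorem result (d : ℝ) : ∃ (n : ℕ) (C : ℝ) (x : Fin n → ℝ), 2 ≤ n ∧ C ≠ 0 ∧ Monotone x ∧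
    TP (fun k => C * ∏ i, ((k : ℝ) - x i)) ∧
    ∃ (j : ℕ) (hj : j + 1 < n), d < x ⟨j + 1, hj⟩ - x ⟨j, by omega⟩ := by
  obtain ⟨l, hl⟩ := exists_nat_gt d
  obtain ⟨N, hN, h⟩ := main l
  have hl0 : (0 : ℝ) ≤ l := by positivity
  refine ⟨N + 2, 1, fun i => if i.val < N then -(1 / 2) else 2 * l + 7 / 2, by omega, one_ne_zero,
    fun i j hij => ?_, ?_, N - 1, by omega, ?_⟩
  · have : i.val ≤ j.val := hij
    simp only
    split_ifs <;> first | omega | linarith
  · refine (congrArg TP (funext fun k => ?_)).mp h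
    rw [Fin.prod_univ_castSucc, Fin.prod_univ_castSucc]
    simp
    ring
  · simp only
    rw [if_neg (by omega), if_pos (by omega)]
    linarith

end Pool.Agent.Results.MP_c563b5_an.No
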